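import Pool.Agent.N24.RW.All
import Pool.Agent.N697.RO.Good
import Pool.Agent.Results.MP_e66f84_ag.SuperellipticFamilies

/-!
# The section conjecture for superelliptic curves with coefficients from random orbits of matrices

Let `k` be a field finitely generated over `ℚ`, the fraction field of a domain `R` of characteristic
zero that is finitely generated as a ring, and let `e_1, …, e_m` be elements of `R`, not all zero (for
instance `m = 1` and `e_1 = 1`, or an integral basis of a number field `k`). Let `D ≥ 3`, and let
`s_0, …, s_r` be matrices in `SL_N(ℤ)`, `N = (D + 2) m`, which generate `SL_N(ℤ/q)` for all `q` prime to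
some `q₀`. By the strong approximation theorem all finite families that generate a Zariski dense
subgroup of `SL_N` are such families; the subgroup may be thin, that is, of infinite index in
`SL_N(ℤ)`. Choose the indices `w_0, w_1, …` independently and uniformly, and let

`x(0) = x`, `x(n + 1) = s_{w_n} x(n)`,   `c_i(n) = x(n)_{i,1} e_1 + … + x(n)_{i,m} e_m`   (`0 ≤ i ≤ D + 1`).

**Theorem.** Almost surely the following holds for all `x ≠ 0`. Outside a set of times `n` of density
zero, for all `d` with `3 ≤ d ≤ D`: the polynomial `f = c_1(n) + c_2(n) x + … + c_{d+1}(n) x ^ d` is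
irreducible of degree `d` over `k`, and for all `a ≥ 1` not coprime to `d` the curve
`c_0(n) y ^ a = f(x)` over `k` has no point over `k`, and the fundamental groups of its open subcurves and
of all smooth curves over `k` that dominate it have no sections. In particular these curves satisfy the
section conjecture.

The definitions (`NoPoint`, `NoSection`, `Exceptional`) are those of the starting result
`Pool.Agent.Results.MP_e66f84_ag.SuperellipticFamilies`, which shows that almost all vectors
`(c_0, …, c_{d+1})` of a box have the property. The vectors of a random orbit grow exponentially fast,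
so that only about `log T` vectors of a box of size `T` occur.

Proof. For the primes `p` of a set with divergent sum of the `1/p` there are residue classes modulo `p²`
of density at least a constant times `1/p` such that the curves with coordinate vectors in these classes
have no sections (`Pool.Agent.N92.TH.local_supply`, based on the local analysis of the starting files). So
for all `M` and `ε` there is a `q` prime to `M` such that the exceptional coordinate vectors are in at
most `ε q ^ N` classes modulo `q`. The random orbit modulo `q` is a random walk on the orbit of `x` modulo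
`q`; after dividing out the common factor of the coordinates of `x` this orbit contains at least half of
all vectors modulo `q`, and the ergodic theorem for Markov chains applies (helper24 and co-workers).
-/

set_option autoImplicit false

namespace Pool.Agent.Results.MP_e66f84_ag.RandomOrbits

open MeasureTheory Filter Topology
open Pool.Agent.N24.RW (Walk orb words)
open Pool.Agent.Results.MP_e66f84_ag.SuperellipticFamilies (Exceptional poly NoPoint NoSection)

universe v w

/-- The vector `(c_0, …, c_{d+1})`, `c_i = ∑_j x_{i j} e_j`, for integers `x_{i j}` (`0 ≤ i ≤ D + 1`) and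
`d ≤ D`. -/
def coeffs {R : Type} [CommRing R] {m D : ℕ} (e : Fin m → R) (x : Fin (D + 2) × Fin m → ℤ) (d : ℕ)
    (h : d ≤ D) : Fin (d + 2) → R :=
  fun i => ∑ j, (x (Fin.castLE (Nat.add_le_add_right h 2) i, j) : R) * e j

/-- the assertions of the starting result -/
theorem not_exceptional {R : Type} [CommRing R] {k : Type} [Field k] [Algebra R k] {d : ℕ}
    {c : Fin (d + 2) → R} (hgood : Pool.Agent.TH377.Sup.Good.{v, w} k c) :
    c ∉ Exceptional.{v, w} R k d := by
  intro hc
  obtain ⟨h1, h2, h3, h4⟩ := hgood
  apply hc
  have hdeg : (poly k c).natDegree = d := Pool.Agent.TH377.Sup.pol_natDegree _ h2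
  refine ⟨h1, hdeg, h3, fun n hn hnd => ?_⟩
  obtain ⟨l, hl, hln, hld⟩ := Nat.Prime.not_coprime_iff_dvd.1 hnd
  exact Pool.Agent.Results.MP_e66f84_ag.SuperellipticFamilies.of_fine l _ (poly k c) (h4 l hl hld) n
    hln (by rw [hdeg]; exact hld)

/-- Let `R` be a domain of characteristic zero that is finitely generated as a ring, with fraction
field `k`, and let `e_1, …, e_m ∈ R`, not all zero. Let `D ≥ 3`, and let `W` be a finite family of
matrices in `SL_N(ℤ)`, `N = (D + 2) m`, that generates `SL_N(ℤ/q)` for all `q` prime to some `q₀`. For
almost all sequences `w` of indices, for all `x ≠ 0` in `ℤ^N`, the following holds for the random orbit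
`x(n) = s_{w (n - 1)} … s_{w 0} x`: the set of all `n` such that for some `d` with `3 ≤ d ≤ D` the vector
`c_i = ∑_j x(n)_{i j} e_j` (`0 ≤ i ≤ d + 1`) is exceptional has density zero. For all other `n` and all
these `d` we have `c_0 ≠ 0`, the polynomial `f = c_1 + c_2 x + … + c_{d+1} x ^ d` is irreducible of degree
`d` over `k`, and for all `a ≥ 1` not coprime to `d` the curve `c_0 y ^ a = f(x)` has no points over `k`
and no sections. -/
theorem result (R : Type) [CommRing R] [IsDomain R] [CharZero R] [Algebra.FiniteType ℤ R]
    (k : Type) [Field k] [Algebra R k] [IsFractionRing R k] (m : ℕ) (e : Fin m → R) (he : e ≠ 0)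
    (D : ℕ) (W : Walk (Fin (D + 2) × Fin m)) :
    ∀ᵐ w ∂(words W.m), ∀ x : Fin (D + 2) × Fin m → ℤ, x ≠ 0 →
      Tendsto (fun N : ℕ => (({n : ℕ | n < N ∧ ∃ (d : ℕ) (h : d ≤ D), 3 ≤ d ∧
        coeffs e (orb W x w n) d h ∈ Exceptional.{v, w} R k d}.ncard : ℕ) : ℝ) / (N : ℝ)) atTop
          (𝓝 0) := by
  obtain ⟨j₀, hj₀⟩ : ∃ j, e j ≠ 0 := by
    by_contra hcon
    push Not at hcon
    exact he (funext hcon)
  filter_upwards [Pool.Agent.N697.RO.orbit_good.{v, w} Pool.Agent.N24.RW.clo
    Pool.Agent.N24.RW.main (k := k) e j₀ hj₀ D W] with w hw x hx
  refine squeeze_zero (fun N => by positivity) (fun N => ?_) (hw x hx)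
  refine div_le_div_of_nonneg_right ?_ (Nat.cast_nonneg N)
  refine Nat.cast_le.2 (Set.ncard_le_ncard ?_ ((Set.finite_lt_nat N).subset fun n hn => hn.1))
  rintro n ⟨hn, d, h, h3, hex⟩
  exact ⟨hn, d, h, h3, fun hg => not_exceptional.{v, w} hg hex⟩

end Pool.Agent.Results.MP_e66f84_ag.RandomOrbits
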