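import Pool.Agent.N890.LP.Main

/-!
# Almost all curves in large families have no locally geometric sections over finitely generated fields

`E_i : y² = x³ + a_i x + b_i` (`i = 1, …, r`) are elliptic curves over `ℚ` with complex multiplication,
of ARBITRARY RANK and with NO HYPOTHESIS ON THEIR TATE-SHAFAREVICH GROUPS (what is used is that they
have supersingular reduction at the large primes `p ≡ -1` modulo some `M`; part (0) of the theorem
proves this if `a_i = 0` or `b_i = 0`, for the other CM curves over `ℚ` it is a theorem of Deuring),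
`A = E_1 × … × E_r`. `K` is a number field, `𝒯 ⊆ A × ℙᵐ` is any closed subvariety over the ring of
integers `𝓞 K`, given by multihomogeneous equations `Φ_l (V; T) = 0`, whose fibres over the points of
`A` modulo large primes have at most `B q^κ` points over the field with `q` elements, `κ ≥ 0` (that
is, all fibres of `𝒯 → A` have dimension at most `κ`). Consider all the intersections
`X_c = 𝒯 ∩ {F_1 = … = F_s = 0}`, `s ≤ r + κ`, where `F_j` runs through all forms of multidegree
`(d_j; e_j)` in the coordinates of the plane cubics `E_i` and in `T`, and `c ∈ (𝓞 K)ⁿ` is the vector of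
all their coefficients. If `𝒯` is irreducible of dimension `r + κ` the general `X_c` has dimension
`r + κ - s`; for `s = r + κ - 1` these are random curves on `𝒯`, for instance on `A` itself (`κ = 0`) or
on `A × ℙ^κ`. Let `D ≥ 1` be an integer with `r > 2 D (r + κ - s)`, that is `D dim X_c < r / 2`, for
curves `r > 2 D`, and suppose that all the degrees `d_ji`, `e_j` are at least `D - 1`.

Theorem, UNCONDITIONAL: let `ε > 0`. For all but `H ^ (n [K:ℚ] - (r / 2 - D (r + κ - s)) + ε)` of the
`c ∈ (𝓞 K)ⁿ` with coordinates bounded by `H`, `H` large, the following holds for ALL finitely generated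
fields `k` over `K` which can be embedded over `K` in the field of Laurent series `F((T))` over a number
field `F` over `K` with `[F : ℚ] ≤ D` (that is, `k` is the function field of a variety over `K` with a
smooth point over `F`), and for all smooth curves `C` over `k` (proper or not) with a map to `X_c`: there is
no section of `π₁(C) → G_k` which is given by a point or a cusp of `C` over `F_w` for all finite places `w`
of `F` and all the embeddings of `k` in `F_w` which are the identity on `K`. In particular `C` has no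
`k`-rational point. So the section conjecture holds for these curves over all these fields as far as the
locally geometric sections are concerned; by the `p`-adic section conjecture all sections should be
locally geometric. EVERY finitely generated field `k` over `K` is of this kind if `D` is large enough, and
all fields `F (T_1, …, T_l)` with `[F : ℚ] ≤ D` and their subfields are; this is part of the theorem
too.

Here `L` is the function field of `C`, `P` the point of `X_c` over `L` given by the map `C → X_c`, `Ω` an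
algebraic closure of `L`, `U` the set of the valuation rings of the closed points of `C`, and `R` an
extension of `L` in `Ω` which contains the maximal extension of `L` which is unramified over `C` (that
is, at the elements of `U`), so that `Gal(R/L) → π₁(C)` is surjective; `B` is an algebraic closure of `k`.

The proof. (1) A section `s` gives for every `N` the cocycles `g ↦ s(g) Q - Q`, `N Q = P`, of `G_k` with
values in `A[N]`, whose image in the cohomology of `F_w`, for every embedding of `k` in `F_w`, is the class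
of a point of `X_c` over `F_w`. (2) The field of the Puiseux series over the algebraic closure
of `F` is algebraically closed, and `G_F` acts on it through the coefficients. It contains `F((T))` and
`k`, so we get a homomorphism `G_F → G_k`, and the cocycle gives a cocycle of `G_F`. Its local condition
at `w`: the fixed field of `G_F` consists of the Puiseux series with coefficients in `F`, and all finitely
generated subfields of it can be embedded in `F_w` over `F` (truncate the series, replace the variable by
a small element, and apply Hensel's lemma); the embedding of `k` in `F_w` obtained in this way is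
compatible with `G_F → G_k` on the field of definition of the cocycle. So the `N`-Selmer
set of `X_c` over `F` is not empty. (3) The file `OverNumberFields` of the folder MP_308fa9_nt shows
that for almost all `c` these sets are empty for one `N` and all `F` (sketched there).
-/

set_option autoImplicit false

namespace Pool.Agent.Results.MP_e66f84_ag.SectionsOverFunctionFields

open MvPolynomial NumberField IsDedekindDomain Pool.Agent.TH954 Pool.Agent.W620.SC

open scoped LinearAlgebra.Projectivization

/-- the curve `y² = x³ + a x + b` -/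
def curve {F : Type} [Field F] (a b : F) : WeierstrassCurve F := ⟨0, 0, 0, a, b⟩

/-- homogeneous coordinates of a point in the projective plane -/
def coords {F : Type} [Field F] {W : WeierstrassCurve F} : W.toAffine.Point → Fin 3 → F
  | .zero => ![0, 1, 0]
  | .some x y _ => ![x, y, 1]

/-- `V` is a vector of homogeneous coordinates of a point of the curve `y² = x³ + a x + b`. -/
def OnCurve {k : Type} [Field k] (a b : ℤ) (V : Fin 3 → k) : Prop :=
  V ≠ 0 ∧ V 1 ^ 2 * V 2 = V 0 ^ 3 + a * V 0 * V 2 ^ 2 + b * V 2 ^ 3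

/-- The value at `V, T` of a polynomial in the coordinates `V i j` (`i : Fin r`, `j : Fin 3`) of `r`
plane cubics and in the coordinates `T x` (`x : Fin (m + 1)`) of `ℙᵐ`, its coefficients being mapped to
`k` by the homomorphism `φ`. -/
noncomputable def value {R k : Type} [CommRing R] [Field k] (φ : R →+* k) {r m : ℕ}
    (F : MvPolynomial ((Fin r × Fin 3) ⊕ Fin (m + 1)) R) (V : Fin r → Fin 3 → k)
    (T : Fin (m + 1) → k) : k :=
  eval₂ φ (Sum.elim (fun ij => V ij.1 ij.2) T) F

/-- `F` is homogeneous of degree `d i` in the coordinates of the `i`-th plane cubic and of degree `e`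
in `T`. -/
def Multihomogeneous {R : Type} [CommRing R] {r m : ℕ}
    (F : MvPolynomial ((Fin r × Fin 3) ⊕ Fin (m + 1)) R) (d : Fin r → ℕ) (e : ℕ) : Prop :=
  ∀ x ∈ F.support, (∀ i, ∑ j, x (Sum.inl (i, j)) = d i) ∧ ∑ s, x (Sum.inr s) = e

/-- The index type of the coefficients of `F_1, …, F_s`: a number `j`, the exponents of a monomial of
degree `e j` in `T_0, …, T_m`, and for each `i` the exponents of a monomial of degree `d j i` in the
three coordinates `V i`. -/
abbrev Coeffs {r s : ℕ} (m : ℕ) (d : Fin s → Fin r → ℕ) (e : Fin s → ℕ) : Type :=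
  Σ j : Fin s, (↥(Finset.piAntidiag (Finset.univ : Finset (Fin (m + 1))) (e j)) ×
    ((i : Fin r) → ↥(Finset.piAntidiag (Finset.univ : Finset (Fin 3)) (d j i))))

/-- The value of the form `F_j` with the coefficients `c`. -/
noncomputable def form {k : Type} [Field k] {r s m : ℕ} {d : Fin s → Fin r → ℕ}
    {e : Fin s → ℕ} (c : Coeffs m d e → k) (j : Fin s) (V : Fin r → Fin 3 → k)
    (T : Fin (m + 1) → k) : k :=
  ∑ x : ↥(Finset.piAntidiag (Finset.univ : Finset (Fin (m + 1))) (e j)) ×
      ((i : Fin r) → ↥(Finset.piAntidiag (Finset.univ : Finset (Fin 3)) (d j i))),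
    c ⟨j, x⟩ * ((∏ i, ∏ y, V i y ^ (x.2 i).1 y) * ∏ y, T y ^ x.1.1 y)

/-- The variety `X_c`, `Φ_l = 0`, `F_j = 0`, over `𝓞 K`, has a point over the extension `L` of `k`, where
`k` is an extension of `K`, whose components in the elliptic curves are the points `P i`. -/
def IsOver {K : Type} [Field K] [NumberField K] {r s m q : ℕ} (a b : Fin r → ℤ)
    (Φ : Fin q → MvPolynomial ((Fin r × Fin 3) ⊕ Fin (m + 1)) (𝓞 K))
    {d : Fin s → Fin r → ℕ} {e : Fin s → ℕ} (c : Coeffs m d e → 𝓞 K) (k : Type) [Field k]
    [Algebra K k] (L : Type) [Field L] [Algebra k L]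
    (P : ∀ i, ((curve (a i : k) (b i : k)).baseChange L).toAffine.Point) : Prop :=
  ∃ T : Fin (m + 1) → L, T ≠ 0 ∧
    (∀ l, value ((algebraMap k L).comp ((algebraMap K k).comp (algebraMap (𝓞 K) K))) (Φ l)
      (fun i => coords (P i)) T = 0) ∧
    ∀ j, form (fun x => algebraMap k L (algebraMap K k (algebraMap (𝓞 K) K (c x)))) j
      (fun i => coords (P i)) T = 0

/-- The section `s` of `Gal(R/L) → Gal(B/k)` is given by a place of `R` with values in the algebraic
closure of `F_w` (a local point or cusp) for all finite places `w` of the number field `F` and all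
embeddings of `k` in `F_w` which are the identity on `K` (that is, all `k`-algebra structures
on `F_w` which extend the given `K`-algebra structure). -/
def LocallyGeometric (K : Type) [Field K] [NumberField K] (F : Type) [Field F] [NumberField F]
    [Algebra K F] {k : Type} [Field k] [Algebra K k] {L R B : Type} [Field L] [Field R] [Field B]
    [Algebra k L] [Algebra L R] [Algebra k R] [IsScalarTower k L R] [Algebra k B]
    (s : GalSection k L R B) : Prop :=
  ∀ (w : HeightOneSpectrum (𝓞 F)) [Algebra k (w.adicCompletion F)],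
    (∀ x : K, algebraMap k (w.adicCompletion F) (algebraMap K k x) =
      algebraMap F (w.adicCompletion F) (algebraMap K F x)) →
    ∃ v : Plc k R (AlgebraicClosure (w.adicCompletion F)), s.GivenBy (w.adicCompletion F) v

/-- Let `L` be an extension of `k` with a point `P` of `X_c` over `L`, for instance the function field of
a curve `C` over `k` with a map to `X_c`, `Ω` an algebraic closure of `L`, `B` an algebraic closure of
`k`, `U` a set of valuation rings of `L` over `k` (for instance those of the closed points of `C`), and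
`R` an extension of `L` in `Ω` which contains the maximal extension unramified at all the elements of
`U`. There is no locally geometric section of `Gal(R/L) → Gal(B/k)`. -/
def NoSection {K : Type} [Field K] [NumberField K] {r s m q : ℕ} (a b : Fin r → ℤ)
    (Φ : Fin q → MvPolynomial ((Fin r × Fin 3) ⊕ Fin (m + 1)) (𝓞 K))
    {d : Fin s → Fin r → ℕ} {e : Fin s → ℕ} (c : Coeffs m d e → 𝓞 K) (F : Type) [Field F]
    [NumberField F] [Algebra K F] (k : Type) [Field k] [Algebra K k] : Prop :=
  ∀ (L Ω R B : Type) [Field L] [Field Ω] [Field R] [Field B] [Algebra k L] [Algebra L Ω]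
    [Algebra k Ω] [Algebra L R] [Algebra k R] [Algebra k B] [IsScalarTower k L Ω]
    [IsScalarTower k L R] [IsAlgClosure L Ω] [IsAlgClosure k B] (f : R →ₐ[L] Ω)
    (P : ∀ i, ((curve (a i : k) (b i : k)).baseChange L).toAffine.Point)
    (U : Set (ValuationSubring L)), IsOver a b Φ c k L P →
    (∀ O ∈ U, ∀ x : k, algebraMap k L x ∈ O) → unramified L Ω U ≤ f.fieldRange →
    ∀ s : GalSection k L R B, ¬ LocallyGeometric K F s

/-- `k` is a finitely generated field over `K` which can be embedded over `K` in the field of Laurent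
series `F((T))`. -/
def Embeds (K F k : Type) [Field K] [Field F] [Algebra K F] [Field k] [Algebra K k] : Prop :=
  (⊤ : IntermediateField K k).FG ∧ ∃ ψ : k →+* LaurentSeries F,
    ∀ x : K, ψ (algebraMap K k x) = algebraMap F (LaurentSeries F) (algebraMap K F x)

/-- For every large `H`, for all but `H ^ (n [K:ℚ] - (r / 2 - D (r + κ - s)) + ε)` of the `c ∈ (𝓞 K)ⁿ`
with coordinates (with respect to the integral basis `ω`) bounded by `H`, there is no locally
geometric section as in the previous definition over any finitely generated field `k` over `K` which can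
be embedded over `K` in the field `F((T))`, where `F` is a number field over `K` with `[F : ℚ] ≤ D`. -/
def AlmostAllNoSection {K : Type} [Field K] [NumberField K] {n₀ : ℕ}
    (ω : Module.Basis (Fin n₀) ℤ (𝓞 K)) {r s m q : ℕ} (a b : Fin r → ℤ)
    (Φ : Fin q → MvPolynomial ((Fin r × Fin 3) ⊕ Fin (m + 1)) (𝓞 K)) (κ : ℕ)
    (d : Fin s → Fin r → ℕ) (e : Fin s → ℕ) (D : ℕ) (ε : ℝ) : Prop :=
  ∃ H₀ : ℕ, ∀ H : ℕ, H₀ ≤ H →
    (({c : Coeffs m d e → 𝓞 K | (∀ x i, |ω.repr (c x) i| ≤ H) ∧
      ¬ ∀ (F : Type) [Field F] [NumberField F] [Algebra K F], Module.finrank ℚ F ≤ D →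
        ∀ (k : Type) [Field k] [Algebra K k], Embeds K F k → NoSection a b Φ c F k}.ncard : ℕ) :
          ℝ) ≤
      (H : ℝ) ^ ((Fintype.card (Coeffs m d e) * n₀ : ℝ) -
        (r / 2 - D * ((r : ℝ) + κ - s)) + ε)

/-- For all large primes `p` (with `p ≡ -1` modulo some `M`), all finite fields `k` of characteristic
`p` with at most `p ^ D` elements and all homomorphisms `𝓞 K → k` the fibres of the reduction of
`𝒯 = {Φ_l = 0}` over the points of `A` over `k` have at most `B |k| ^ κ` points over `k`. -/
def FewPoints {K : Type} [Field K] [NumberField K] {r m q : ℕ} (a b : Fin r → ℤ)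
    (Φ : Fin q → MvPolynomial ((Fin r × Fin 3) ⊕ Fin (m + 1)) (𝓞 K)) (κ : ℕ) (B : ℝ)
    (D : ℕ) : Prop :=
  ∃ M p₁ : ℕ, 0 < M ∧ ∀ (p : ℕ) [Fact p.Prime], p₁ ≤ p → M ∣ p + 1 →
    ∀ (k : Type) [Field k] [Fintype k] [Algebra (ZMod p) k], Fintype.card k ≤ p ^ D →
    ∀ (φ : 𝓞 K →+* k) (V : Fin r → Fin 3 → k), (∀ i, OnCurve (a i) (b i) (V i)) →
      (({P : ℙ k (Fin (m + 1) → k) | ∀ l, value φ (Φ l) V P.rep = 0}.ncard : ℕ) : ℝ) ≤
        B * (Fintype.card k : ℝ) ^ κ

/-- `y² = x³ + a x + b` is an elliptic curve over `ℚ` which has `p` affine points modulo `p` (is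
supersingular) for the primes `p ≡ -1` modulo some `M` which do not divide some `D`. This holds for
the elliptic curves over `ℚ` with complex multiplication, and only for them. -/
def Supersingular (a b : ℤ) : Prop :=
  4 * a ^ 3 + 27 * b ^ 2 ≠ 0 ∧ ∃ M D : ℕ, 0 < M ∧ 0 < D ∧ ∀ p : ℕ, p.Prime → ¬ p ∣ D → M ∣ p + 1 →
    Nat.card {z : ZMod p × ZMod p // z.2 ^ 2 = z.1 ^ 3 + a * z.1 + b} = p

theorem supersingular_of (a b : ℤ) (h : a * b = 0) (h0 : a ≠ 0 ∨ b ≠ 0) : Supersingular a b := by
  refine ⟨?_, 12, 1, by norm_num, one_pos, fun p hp _ h12 =>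
    Pool.Agent.H35R6.DCCNT.cnt p a b hp h12 h⟩
  exact Pool.Agent.N89.CI.disc_ne (r := 1) (a := fun _ => a) (b := fun _ => b)
    (fun _ => ⟨h, h0⟩) 0

theorem general {K : Type} [Field K] [NumberField K] {n₀ : ℕ}
    (ω : Module.Basis (Fin n₀) ℤ (𝓞 K)) (r : ℕ) (a b : Fin r → ℤ)
    (hE : ∀ i, Supersingular (a i) (b i))
    (κ s D : ℕ) (hD : 1 ≤ D) (hs : s ≤ r + κ) (hr : 2 * D * (r + κ - s) < r)
    (d : Fin s → Fin r → ℕ) (e : Fin s → ℕ) (hd : ∀ j i, D ≤ d j i + 1) (he : ∀ j, D ≤ e j + 1)
    (ε : ℝ) (hε : 0 < ε) (m q : ℕ)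
    (Φ : Fin q → MvPolynomial ((Fin r × Fin 3) ⊕ Fin (m + 1)) (𝓞 K))
    (d' : Fin q → Fin r → ℕ) (e' : Fin q → ℕ) (hΦ : ∀ l, Multihomogeneous (Φ l) (d' l) (e' l))
    (B : ℝ) (hpts : FewPoints a b Φ κ B D) : AlmostAllNoSection ω a b Φ κ d e D ε := by
  obtain ⟨M, p₁, hM, hpts⟩ := hpts
  choose hdisc M₁ D₁ hM₁ hD₁ hss using hE
  obtain ⟨H₀, hH⟩ := Pool.Agent.N890.DU.mainF K r m κ s D n₀ hD hs
    (by rw [← mul_assoc]; exact hr) a b hdisc (∏ i, M₁ i)
    (∏ i, D₁ i) (Finset.prod_pos fun i _ => hM₁ i) (Finset.prod_pos fun i _ => hD₁ i)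
    (fun i p hp hpD hpM => hss i p hp
      (fun h => hpD (h.trans (Finset.dvd_prod_of_mem _ (Finset.mem_univ i))))
      ((Finset.dvd_prod_of_mem _ (Finset.mem_univ i)).trans hpM)) Φ d' e'
    hΦ ω d e hd he B M p₁ hM (fun p _ hp hM => hpts p hp hM) ε 1 hε one_pos
  refine ⟨H₀, fun H hH' => ?_⟩
  obtain ⟨N, hN, -, -, hcard⟩ := hH H hH'
  refine le_trans (Nat.cast_le.2 ?_) (hcard.trans (le_of_eq ?_))
  · refine Set.ncard_le_ncard_of_injOn (fun c x => ω.repr (c x.1) x.2) ?_ ?_ ?_
    · rintro c ⟨hc, h⟩
      refine ⟨fun x => hc x.1 x.2, ?_⟩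
      have hpar : ∀ (F : Type) [Field F] [Algebra K F],
          Pool.Agent.N890.DU.parF F ω (fun x => ω.repr (c x.1) x.2) =
          fun x => algebraMap K F (algebraMap (𝓞 K) K (c x)) := by
        intro F _ _
        funext x
        unfold Pool.Agent.N890.DU.parF
        congr 2
        exact ω.sum_repr (c x)
      push Not at h
      obtain ⟨F, _, _, _, hF, k, _, _, ⟨hfg, ψ, hψ⟩, h⟩ := h
      refine ⟨F, inferInstance, inferInstance, inferInstance, hF, ?_⟩
      rw [hpar F]
      unfold NoSection at h
      push Not at h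
      obtain ⟨L, Ω, R, B, _, _, _, _, _, _, _, _, _, _, _, _, _, _, f, P, U, ⟨T, hT, h4, h5⟩,
        hU, hL, s, hs⟩ := h
      refine Pool.Agent.N890.LP.mainS hfg ψ hψ a b hdisc _ (Sum.elim d' d) (Sum.elim e' e)
        (Pool.Agent.N89.CI.mhomog_family Φ d' e' hΦ d e) N hN c f P ⟨T, hT, fun l => ?_⟩ s
        (Or.inr ⟨U, hU, hL⟩) hs
      rcases l with l | j
      · simp only [Sum.elim_inl]
        rw [Pool.Agent.N89.CI.valP_lift0]
        exact h4 l
      · simp only [Sum.elim_inr]
        rw [Pool.Agent.N89.CI.valP_gen]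
        exact h5 j
    · intro c _ c' _ h
      funext x
      apply ω.repr.injective
      ext i
      exact congrFun h (x, i)
    · have : {c : Coeffs m d e × Fin n₀ → ℤ | ∀ j, c j ∈ Set.Icc (-(H : ℤ)) (H : ℤ)}.Finite :=
        Set.Finite.pi' fun _ => Set.finite_Icc _ _
      apply Set.Finite.subset this
      rintro c ⟨hc, -⟩ j
      exact ⟨(abs_le.1 (hc j)).1, (abs_le.1 (hc j)).2⟩
  · congr 1
    rw [Fintype.card_prod, Fintype.card_fin]
    push_cast [Nat.cast_sub hs]
    ring

/-- **Almost all members `X_c` with `D dim X_c < r / 2` of these linear systems over `K` have no locally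
geometric sections over any finitely generated subfield `k` of `F((T))`, `[F : ℚ] ≤ D`.** -/
theorem result (K : Type) [Field K] [NumberField K] (n₀ : ℕ)
    (ω : Module.Basis (Fin n₀) ℤ (𝓞 K)) (r : ℕ) (a b : Fin r → ℤ)
    (hE : ∀ i, Supersingular (a i) (b i))
    (κ s D : ℕ) (hD : 1 ≤ D) (hs : s ≤ r + κ) (hr : 2 * D * (r + κ - s) < r)
    (d : Fin s → Fin r → ℕ) (e : Fin s → ℕ) (hd : ∀ j i, D ≤ d j i + 1) (he : ∀ j, D ≤ e j + 1)
    (ε : ℝ) (hε : 0 < ε) :
    -- (0) the curves `y² = x³ + a x` and `y² = x³ + b`
    (∀ a b : ℤ, a * b = 0 → (a ≠ 0 ∨ b ≠ 0) → Supersingular a b) ∧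
    -- (1) all finitely generated fields over `K` can be embedded in `F((T))` for some number field `F`
    (∀ (k : Type) [Field k] [Algebra K k], (⊤ : IntermediateField K k).FG →
      ∃ (F : Type) (_ : Field F) (_ : NumberField F) (_ : Algebra K F), Embeds K F k) ∧
    -- (2) all fields of rational functions over `F` can be embedded in `F((T))`
    (∀ (F : Type) [Field F] [NumberField F] (l : ℕ),
      Nonempty (FractionRing (MvPolynomial (Fin l) F) →ₐ[F] LaurentSeries F)) ∧
    -- the general family
    (∀ (m q : ℕ) (Φ : Fin q → MvPolynomial ((Fin r × Fin 3) ⊕ Fin (m + 1)) (𝓞 K))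
      (d' : Fin q → Fin r → ℕ) (e' : Fin q → ℕ), (∀ l, Multihomogeneous (Φ l) (d' l) (e' l)) →
      ∀ B : ℝ, FewPoints a b Φ κ B D → AlmostAllNoSection ω a b Φ κ d e D ε) ∧
    -- `𝒯 = A × ℙ^κ`
    AlmostAllNoSection (m := κ) ω a b (fun l : Fin 0 => l.elim0) κ d e D ε ∧
    -- `𝒯 = A × Y` for a hypersurface `Y : f = 0` in `ℙ^(κ+1)` over `K`
    (∀ (g : ℕ) (f : MvPolynomial (Fin (κ + 2)) (𝓞 K)), f.IsHomogeneous g → f ≠ 0 →
      AlmostAllNoSection (m := κ + 1) ω a b (fun _ : Fin 1 => rename Sum.inr f) κ d e D ε) := by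
  refine ⟨supersingular_of, fun k _ _ hfg => ?_, fun F _ _ l => ?_, ?_, ?_, ?_⟩
  · obtain ⟨F, hF, hF', hKF, ψ, hψ⟩ := Pool.Agent.N890.LP.exists_embedding K k hfg
    exact ⟨F, hF, hF', hKF, hfg, ψ, hψ⟩
  · exact Pool.Agent.N890.LP.exists_rat F l
  · intro m q Φ d' e' hΦ B hB
    exact general ω r a b hE κ s D hD hs hr d e hd he ε hε m q Φ d' e' hΦ B hB
  · refine general ω r a b hE κ s D hD hs hr d e hd he ε hε κ 0 _ (fun l => l.elim0)
      (fun l => l.elim0) (fun l => l.elim0) (3 / 2) ⟨1, 3, one_pos, ?_⟩
    intro p hp hp3 _ k _ _ _ _ φ V hV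
    have h1 : {P : ℙ k (Fin (κ + 1) → k) |
        ∀ l : Fin 0, value φ (l.elim0 : MvPolynomial ((Fin r × Fin 3) ⊕ Fin (κ + 1)) (𝓞 K)) V
          P.rep = 0} = Set.univ :=
      Set.eq_univ_of_forall fun P l => l.elim0
    have h3 : 3 ≤ Nat.card k := by
      rw [Nat.card_eq_fintype_card]
      refine hp3.trans ?_
      have h4 := Fintype.card_le_of_injective _ (algebraMap (ZMod p) k).injective
      rwa [ZMod.card] at h4
    rw [h1, Set.ncard_univ]
    have h2 := Pool.Agent.N89.CI.density_fun (k := k) (m := κ) (κ := κ) h3 rfl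
    rwa [Nat.card_eq_fintype_card (α := k)] at h2
  · intro g f hf hf0
    obtain ⟨p₁, hp₁⟩ := Pool.Agent.N890.DU.hyp_countK κ g f hf hf0
    refine general ω r a b hE κ s D hD hs hr d e hd he ε hε (κ + 1) 1 _ (fun _ _ => 0)
      (fun _ => g) (fun _ => ?_) (2 * g) ⟨1, p₁, one_pos, ?_⟩
    · intro x hx
      classical
      obtain ⟨y, hy1, hy2⟩ := coeff_rename_ne_zero _ _ _ (mem_support_iff.1 hx)
      subst hy1
      refine ⟨fun i => Finset.sum_eq_zero fun j _ => ?_, ?_⟩
      · rw [Finsupp.mapDomain_of_notMem_range]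
        simp
      · have h1 := hf hy2
        rw [Finsupp.weight_apply, Finsupp.sum_fintype _ _ (fun _ => by simp)] at h1
        rw [← h1]
        refine Finset.sum_congr rfl fun i _ => ?_
        rw [Finsupp.mapDomain_apply Sum.inr_injective]
        simp
    · intro p hp hp1 _ k _ _ _ _ φ V hV
      refine le_trans (le_of_eq ?_) (hp₁ p hp1 k φ)
      congr 2
      ext P
      simp only [Set.mem_ofPred_eq]
      unfold value
      rw [eval₂_rename]
      simp only [Sum.elim_comp_inr]
      exact ⟨fun h => h 0, fun h _ => h⟩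

end Pool.Agent.Results.MP_e66f84_ag.SectionsOverFunctionFields
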