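import Pool.Agent.N92.TH.Main
import Pool.Agent.Results.MP_e66f84_ag.SuperellipticFamilies

/-!
# The section conjecture for superelliptic curves with coefficients from thin sequences

Let `k` be a field finitely generated over `ℚ`, the fraction field of a domain `R` of characteristic
zero that is finitely generated as a ring, and let `e_1, …, e_m` be elements of `R`, not all zero (for
instance `m = 1` and `e_1 = 1`, or an integral basis of a number field `k`). Let `P_{i j}` (`i ≥ 0`,
`1 ≤ j ≤ m`) be generalised polynomials `P(t) = ∑ a_x t ^ x` (finitely many real exponents and real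
coefficients) whose leading exponents are distinct, positive and not integers, with positive leading
coefficients; for example `P_{i j}(t) = t ^ (i + √2 j)`. Put

`c_i(t) = ⌊P_{i 1}(t)⌋ e_1 + … + ⌊P_{i m}(t)⌋ e_m`   for the positive integers `t`.

**Theorem.** There is ONE set `E` of natural density zero, also of relative density zero in the set of
the primes, such that for all `d ≥ 3`, for all but finitely many `t` outside `E` the following holds: the
polynomial `f = c_1(t) + c_2(t) x + … + c_{d+1}(t) x ^ d` is irreducible of degree `d` over `k`, and for all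
`n ≥ 1` not coprime to `d` the curve

`c_0(t) yⁿ = f(x)`

over `k` has no point over `k`, and the fundamental groups of its open subcurves and of all smooth curves
over `k` that dominate it have no sections. In particular these curves satisfy the section conjecture.

The definitions (`NoPoint`, `NoSection`, `Exceptional`) are those of the starting result
`Pool.Agent.Results.MP_e66f84_ag.SuperellipticFamilies`, which shows that almost all vectors
`(c_0, …, c_{d+1})` of a box have the property. Only `N` of the about `N ^ (sum of the exponents)` vectors
of the box occur for `t ≤ N`, so the box theorem says nothing about them.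

Proof. As in the starting result there are a number field `L` and a homomorphism `P : R → L` such that for
almost all primes `v` of `L` there is an embedding of `k` in `L_v` close to `P`, and the curve has no
sections if its coefficients are in a set of residue classes modulo `v²` of density at least
`(1/4d)(1/N v - 1/(N v)²)`. For the `v` of degree one, unramified over `p`, the classes of the integral
coordinate vectors modulo `p²` that give such coefficients have the same density. The sum over these primes
diverges, and the vectors of the integer parts are equidistributed modulo all `q ≤ N ^ κ`, over the integers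
and over the primes `t ≤ 2 N` (exponential sums, helper666). Turan's sieve gives the theorem for
each `d`, and a diagonal argument gives one exceptional set.
-/

set_option autoImplicit false

namespace Pool.Agent.Results.MP_e66f84_ag.ThinSequences

open Pool.Agent.Results.MP_e66f84_ag.SuperellipticFamilies (Exceptional poly NoPoint NoSection)

universe v w

/-- `c` is the largest exponent of the generalised polynomial `∑ a_x t ^ x`; it is positive and not an
integer and has a positive coefficient. -/
def Admissible (F : Finset ℝ) (a : ℝ → ℝ) (c : ℝ) : Prop :=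
  c ∈ F ∧ (∀ x ∈ F, x ≤ c) ∧ 0 < c ∧ (∀ m : ℕ, c ≠ m) ∧ 0 < a c

/-- The vector `(c_0(t), …, c_{d+1}(t))`, `c_i(t) = ∑_j ⌊P_{i j}(t)⌋ e_j`, where `P_{i j}` is the generalised
polynomial with the exponents `F i j` and the coefficients `a i j`. -/
noncomputable def coeffs {R : Type} [CommRing R] {m : ℕ} (e : Fin m → R) (F : ℕ → Fin m → Finset ℝ)
    (a : ℕ → Fin m → ℝ → ℝ) (d t : ℕ) : Fin (d + 2) → R :=
  fun i => ∑ j, ((⌊∑ x ∈ F i j, a i j x * (t : ℝ) ^ x⌋ : ℤ) : R) * e j

/-- `E` has density zero relative to the sets `S N`. -/
def NullIn (S : ℕ → Finset ℕ) (E : Set ℕ) : Prop :=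
  ∀ ε : ℝ, 0 < ε → ∃ N₀ : ℕ, ∀ N : ℕ, N₀ ≤ N →
    ({t : ℕ | t ∈ S N ∧ t ∈ E}.ncard : ℝ) ≤ ε * (S N).card

/-- the assertions of the starting result -/
theorem not_exceptional {R : Type} [CommRing R] {k : Type} [Field k] [Algebra R k] {d : ℕ}
    (hd : 3 ≤ d) {c : Fin (d + 2) → R} (hgood : Pool.Agent.TH377.Sup.Good.{v, w} k c) :
    c ∉ Exceptional.{v, w} R k d := by
  intro hc
  obtain ⟨h1, h2, h3, h4⟩ := hgood
  apply hc
  have hdeg : (poly k c).natDegree = d := Pool.Agent.TH377.Sup.pol_natDegree _ h2
  refine ⟨h1, hdeg, h3, fun n hn hnd => ?_⟩
  obtain ⟨l, hl, hln, hld⟩ := Nat.Prime.not_coprime_iff_dvd.1 hnd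
  exact Pool.Agent.Results.MP_e66f84_ag.SuperellipticFamilies.of_fine l _ (poly k c) (h4 l hl hld) n
    hln (by rw [hdeg]; exact hld)

/-- Let `R` be a domain of characteristic zero that is finitely generated as a ring, with fraction
field `k`, and let `e_j ∈ R`, not all zero. Let `P_{i j}` be generalised polynomials with distinct leading
exponents, positive and not integers, and positive leading coefficients. There is one set `E` of density
zero, also in the primes, such that for all `d ≥ 3` and all but finitely many `t` not in `E` the vector
`c_i(t) = ∑_j ⌊P_{i j}(t)⌋ e_j` is not exceptional: `c_0(t) ≠ 0`, the polynomial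
`f = c_1(t) + … + c_{d+1}(t) x ^ d` is irreducible of degree `d` over `k`, and for all `n ≥ 1` not coprime to `d`
the curve `c_0(t) yⁿ = f(x)` has no points over `k` and no sections. -/
theorem result (R : Type) [CommRing R] [IsDomain R] [CharZero R] [Algebra.FiniteType ℤ R]
    (k : Type) [Field k] [Algebra R k] [IsFractionRing R k] (m : ℕ) (e : Fin m → R) (he : e ≠ 0)
    (F : ℕ → Fin m → Finset ℝ) (a : ℕ → Fin m → ℝ → ℝ) (c : ℕ → Fin m → ℝ)
    (h : ∀ i j, Admissible (F i j) (a i j) (c i j))
    (hc : Function.Injective (fun z : ℕ × Fin m => c z.1 z.2)) :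
    ∃ E : Set ℕ, NullIn (fun N => Finset.Ioc N (2 * N)) E ∧
      NullIn (fun N => (Finset.Ioc N (2 * N)).filter Nat.Prime) E ∧
      ∀ d : ℕ, 3 ≤ d →
        {t : ℕ | t ∉ E ∧ coeffs e F a d t ∈ Exceptional.{v, w} R k d}.Finite := by
  obtain ⟨j₀, hj₀⟩ : ∃ j, e j ≠ 0 := by
    by_contra hcon
    push Not at hcon
    exact he (funext hcon)
  obtain ⟨E, h1, h2, h3⟩ := Pool.Agent.N92.TH.main.{v, w} k e j₀ hj₀ F a c h hc
  refine ⟨E, h1, h2, fun d hd => (h3 d hd).subset ?_⟩
  rintro t ⟨ht, ht'⟩
  exact ⟨ht, fun hg => not_exceptional.{v, w} hd hg ht'⟩

end Pool.Agent.Results.MP_e66f84_ag.ThinSequences
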