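import Pool.Agent.N168.TE.Tw

/-!
# Curves on products of quadratic twists without locally geometric sections

Let `E_1, …, E_n` be elliptic curves `y² = x³ + a x + b` over `ℚ` with integral coefficients and
trivial 2-Selmer groups over `ℚ`, and let `X` be a closed subset of `E_1 × … × E_n` over `ℚ` whose
equations are even in the `y`-coordinates, such that no point of `X` over `ℚ_2` has components
all of which are torsion points of orders dividing two times an odd number. For all allowed
discriminants `D_1, …, D_n` (products of primes, in any number, modulo which the curve has an odd number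
of points, such that the primes dividing two and the discriminant of the curve split in `ℚ(√D_i)`) let
`X_D` be the twist of `X` in the product of the quadratic twists of the `E_i` by the `D_i`.

Theorem. For all the allowed `D` and all smooth curves `C` over `ℚ` with a map to `X_D` there is no
section of `π₁(C) → G_ℚ` which is given over `ℚ_p` by a point or a cusp of `C` for all primes `p`.

Example: for all allowed discriminants `D_1, D_2` for `X_0(11) : y² = x³ - 13392 x - 1080432` this holds
for the curve of genus five given by `D_1 y_1² = f(x_1)`, `D_2 y_2² = f(x_2)`, `x_1 x_2 = 21039`, where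
`f(x) = x³ - 13392 x - 1080432`, and for all the curves which dominate it.

The proof: 2-Selmer groups over `ℚ(√D_i)`, restriction of cocycles to `ℚ`, and the descents by
`2 ^ k`-coverings for the class of the section: the local points at two would be torsion points.
The fundamental group is described as in the other files on the section conjecture.
-/

set_option autoImplicit false

open IsDedekindDomain NumberField WeierstrassCurve MvPolynomial Pool.Agent.TH954
  Pool.Agent.W620.SC

open scoped Classical

namespace Pool.Agent.Results.MP_e66f84_ag.TwistedFibreProducts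

/-- `W` is an elliptic curve `y² = x³ + a x + b` with integral coefficients. -/
def IsShort (W : WeierstrassCurve ℤ) : Prop := (W.a₁ = 0 ∧ W.a₂ = 0 ∧ W.a₃ = 0) ∧ W.Δ ≠ 0

/-- The 2-Selmer group of `W` over `ℚ` is trivial: `W(ℚ)` is finite of odd order and `Ш(W/ℚ)` has no
element of order two. -/
def TrivialTwoSelmer (W : WeierstrassCurve ℤ) : Prop :=
  Finite (W.map (Int.castRingHom ℚ)).toAffine.Point ∧
  Odd (Nat.card (W.map (Int.castRingHom ℚ)).toAffine.Point) ∧
  ∀ s : Pool.Agent.TH841.NF.D.Sha (W.map (Int.castRingHom ℚ)), 2 • s = 0 → s = 0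

/-- The number of the points of `W` over `ℤ/l`, with the point at infinity. -/
noncomputable def pointCount (W : WeierstrassCurve ℤ) (l : ℕ) : ℕ :=
  Nat.card {P : ZMod l × ZMod l //
    (W.map (Int.castRingHom (ZMod l))).toAffine.Equation P.1 P.2} + 1

/-- The discriminant `∏ (-1) ^ ((q - 1) / 2) q` of a finite set of odd primes. -/
def disc (T : Finset ℕ) : ℤ := ∏ q ∈ T, (-1 : ℤ) ^ ((q - 1) / 2) * q

/-- The discriminant of the set `T` is allowed for `W`: `T` consists of primes `q ∤ 2 Δ` modulo
which `W` has an odd number of points, all the primes dividing `2 Δ` are split in `ℚ(√(disc T))`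
(their Jacobi symbols modulo `∏ q` are 1), and `disc T > 0` if `Δ > 0`. -/
structure IsAllowed (W : WeierstrassCurve ℤ) (T : Finset ℕ) : Prop where
  primes : ∀ q ∈ T, q.Prime ∧ ¬ (q : ℤ) ∣ 2 * W.Δ ∧ Odd (pointCount W q)
  split : ∀ p : ℕ, p.Prime → (p : ℤ) ∣ 2 * W.Δ → jacobiSym p (∏ q ∈ T, q) = 1
  pos : 0 < W.Δ → 0 < disc T

/-- The quadratic twist `y² = x³ + a D² x + b D³` of `y² = x³ + a x + b` by `D`. -/
def twist (W : WeierstrassCurve ℤ) (D : ℤ) : WeierstrassCurve ℤ :=
  ⟨0, 0, 0, W.a₄ * D ^ 2, W.a₆ * D ^ 3⟩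

/-- All the exponents of the `y`-coordinates are even. -/
def EvenInY {n : ℕ} (f : MvPolynomial (Fin n × Fin 3) ℚ) : Prop :=
  ∀ m ∈ f.support, ∀ i, Even (m (i, 1))

/-- The equation of the twist: `f` with `y_i²` replaced by `y_i² / D_i` and `z_i` by `D_i z_i`, where
`(x_i : y_i : z_i)` are the homogeneous coordinates of the `i`-th point. -/
noncomputable def twistedEquation {n : ℕ} (D : Fin n → ℤ) (f : MvPolynomial (Fin n × Fin 3) ℚ) :
    MvPolynomial (Fin n × Fin 3) ℚ :=
  ∑ m ∈ f.support, monomial m (coeff m f *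
    ∏ i, (((D i : ℤ) : ℚ) ^ m (i, 2) * (((D i : ℤ) : ℚ)⁻¹) ^ (m (i, 1) / 2)))

/-- No point of `X` over `ℚ_2` has components all of which are torsion points of orders dividing
two times an odd number. -/
def NoTorsionPoint {n : ℕ} (W : Fin n → WeierstrassCurve ℤ)
    (S : Set (MvPolynomial (Fin n × Fin 3) ℚ)) : Prop :=
  ∀ P : (i : Fin n) → ((W i).map (Int.castRingHom ℚ_[2])).toAffine.Point,
    (∀ f ∈ S, eval (fun p => crd (P p.1) p.2) (MvPolynomial.map (algebraMap ℚ ℚ_[2]) f) = 0) →
      ∃ i, ∀ m : ℕ, Odd m → (2 * m) • P i ≠ 0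

/-- Every smooth curve over `ℚ` with function field `F` has no section which is given over `ℚ_p` by a
point or a cusp for all primes `p`: here `C` is the set of the valuation rings of the points of the
curve, and the field `M` can be any extension of `F` in the algebraic closure `Ω` which contains the
maximal extension of `F` unramified over `C`. -/
def NoLocallyGeometricSection (F : Type) [Field F] [Algebra ℚ F] : Prop :=
  ∀ (Ω M B : Type) [Field Ω] [Field M] [Field B] [Algebra F Ω] [Algebra ℚ Ω] [Algebra F M]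
    [Algebra ℚ M] [Algebra ℚ B] [IsScalarTower ℚ F Ω] [IsScalarTower ℚ F M] [IsAlgClosure F Ω]
    [IsAlgClosure ℚ B] (C : Set (ValuationSubring F))
    (_ : ∀ O ∈ C, ∀ c : ℚ, algebraMap ℚ F c ∈ O) (e : M →ₐ[F] Ω)
    (_ : unramified F Ω C ≤ e.fieldRange),
    ¬ ∃ s : GalSection ℚ F M B, ∀ v : HeightOneSpectrum (𝓞 ℚ),
      s.GeometricOver (v.adicCompletion ℚ) (AlgebraicClosure (v.adicCompletion ℚ))

/-- The curve `y² = x³ - 13392 x - 1080432`, a short equation of `X_0(11)`. -/
def X11 : WeierstrassCurve ℤ := ⟨0, 0, 0, -13392, -1080432⟩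

theorem result :
    (∀ (n : ℕ) (W : Fin n → WeierstrassCurve ℤ), (∀ i, IsShort (W i)) →
      (∀ i, TrivialTwoSelmer (W i)) →
      ∀ S : Set (MvPolynomial (Fin n × Fin 3) ℚ), (∀ f ∈ S, EvenInY f ∧ ∃ d, MultiHom d f) →
        NoTorsionPoint W S → ∀ T : Fin n → Finset ℕ, (∀ i, IsAllowed (W i) (T i)) →
          ∀ (F : Type) [Field F] [Algebra ℚ F] (P : (i : Fin n) →
            (((twist (W i) (disc (T i))).map (Int.castRingHom ℚ)).baseChange F).toAffine.Point),
            OnX {g | ∃ f ∈ S, g = twistedEquation (fun i => disc (T i)) f} (fun i => crd (P i)) →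
              NoLocallyGeometricSection F) ∧
    (IsShort X11 ∧ TrivialTwoSelmer X11) ∧
    ∀ T : Fin 2 → Finset ℕ, (∀ i, IsAllowed X11 (T i)) →
      ∀ (F : Type) [Field F] [Algebra ℚ F] (x y : Fin 2 → F),
        (∀ i, (disc (T i) : F) * y i ^ 2 = x i ^ 3 - 13392 * x i - 1080432) → x 0 * x 1 = 21039 →
          NoLocallyGeometricSection F := by
  have key : ∀ (n : ℕ) (W : Fin n → WeierstrassCurve ℤ), (∀ i, IsShort (W i)) →
      (∀ i, TrivialTwoSelmer (W i)) →
      ∀ S : Set (MvPolynomial (Fin n × Fin 3) ℚ), (∀ f ∈ S, EvenInY f ∧ ∃ d, MultiHom d f) →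
        NoTorsionPoint W S → ∀ T : Fin n → Finset ℕ, (∀ i, IsAllowed (W i) (T i)) →
          ∀ (F : Type) [Field F] [Algebra ℚ F] (P : (i : Fin n) →
            (((twist (W i) (disc (T i))).map (Int.castRingHom ℚ)).baseChange F).toAffine.Point),
            OnX {g | ∃ f ∈ S, g = twistedEquation (fun i => disc (T i)) f} (fun i => crd (P i)) →
              NoLocallyGeometricSection F := by
    intro n W hW hT S hS hno T hA F _ _ P hP Ω M B _ _ _ _ _ _ _ _ _ _ _ _ C hC e he
    have hno' : Pool.Agent.R425.D.TwoOddFree W S := by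
      intro Q hQ
      refine hno Q fun f hf => hQ _ ⟨f, hf, rfl⟩
    exact Pool.Agent.R425.D.thmS2 (fun i => (hW i).1) (fun i => (hW i).2) hT S hS hno' T
      (fun i => ⟨(hA i).primes, (hA i).split, (hA i).pos⟩) C hC e he P hP
  refine ⟨key, ⟨⟨⟨rfl, rfl, rfl⟩, Pool.Agent.R425.D.disc11⟩, Pool.Agent.R425.D.sel11s⟩, ?_⟩
  intro T hA F _ _ x y h hx
  have hD : ∀ i, disc (T i) ≠ 0 := fun i =>
    Pool.Agent.R901.EC.disc_ne fun q hq => ((hA i).primes q hq).1
  have : CharZero F := charZero_of_injective_algebraMap (algebraMap ℚ F).injective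
  choose P hP using fun i => Pool.Agent.N168.TE.exists_pt (hD i) (h i)
  refine key 2 (fun _ => X11) (fun _ => ⟨⟨rfl, rfl, rfl⟩, Pool.Agent.R425.D.disc11⟩)
    (fun _ => Pool.Agent.R425.D.sel11s) Pool.Agent.R425.D.exS Pool.Agent.R425.D.exS_me ?_ T hA F P
    (Pool.Agent.N168.TE.ex_onX hD h hx P hP)
  intro Q hQ
  refine Pool.Agent.R425.D.ex_free2 Q ?_
  rintro g ⟨f, hf, rfl⟩
  exact hQ f hf

end Pool.Agent.Results.MP_e66f84_ag.TwistedFibreProducts
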